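import Mathlib
import Pool.Agent.Helper89.OS.Dat
import Pool.Agent.Helper29.HP.St.Six
import Pool.Agent.Helper82.HP.Transfer
import Pool.Agent.Helper89.OS.Defs

namespace Pool.Agent.Helper29.HP.Six
end Pool.Agent.Helper29.HP.Six

set_option autoImplicit false

/-!
The filtered ring of a plane curve of odd degree in general position (piece X3 of project OS).
-/

namespace Pool.Agent.Helper27.OSX

open MvPolynomial Pool.Agent.Helper29.HP Pool.Agent.Helper29.HP.Six Module
  Pool.Agent.Helper89.OS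

/-- the class of `x` -/
noncomputable def ex (μ : P3) : KG μ :=
  algebraMap kx (KG μ) (algebraMap (Polynomial ℂ) kx Polynomial.X)

/-- the class of `y` -/
noncomputable def ey (μ : P3) : KG μ := AdjoinRoot.root (psi μ)

theorem psi_X0 : psi (X 0) = 1 := by simp [psi]
theorem psi_X1 : psi (X 1) = Polynomial.C (algebraMap (Polynomial ℂ) kx Polynomial.X) := by
  simp [psi]
theorem psi_X2 : psi (X 2) = Polynomial.X := by simp [psi]

theorem ev_eq (μ : P3) (p : P3) : ev μ p = AdjoinRoot.mk (psi μ) (psi p) := rfl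

theorem ev_X0 (μ : P3) : ev μ (X 0) = 1 := by
  rw [ev_eq, psi_X0, map_one]

theorem ev_X1 (μ : P3) : ev μ (X 1) = ex μ := by
  rw [ev_eq, psi_X1]; rfl

theorem ev_X2 (μ : P3) : ev μ (X 2) = ey μ := by
  rw [ev_eq, psi_X2]; rfl

theorem coeff_gp {μ : P3} {n : ℕ} (h : μ.IsHomogeneous n) :
    eval ![0, 0, 1] μ = coeff (Finsupp.single 2 n) μ := by
  rw [eval_eq']
  rw [Finset.sum_eq_single (Finsupp.single 2 n)]
  · have : ∏ i : Fin 3, (![0, 0, 1] : Fin 3 → ℂ) i ^ (Finsupp.single 2 n : Fin 3 →₀ ℕ) i = 1 := by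
      rw [Fin.prod_univ_three]
      simp
    rw [this, mul_one]
  · intro s hs hne
    have hdeg : s.degree = n := by
      by_contra hd
      exact (mem_support_iff.mp hs) (h.coeff_eq_zero hd)
    have : s 0 ≠ 0 ∨ s 1 ≠ 0 := by
      by_contra hcon
      push Not at hcon
      apply hne
      have h3 : s.degree = s 0 + s 1 + s 2 := by
        rw [Finsupp.degree_eq_sum, Fin.sum_univ_three]
      ext i
      fin_cases i
      · simp [hcon.1]
      · simp [hcon.2]
      · simp only [Fin.reduceFinMk, Finsupp.single_eq_same]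
        omega
    rw [Fin.prod_univ_three]
    rcases this with h0 | h0
    · simp [h0]
    · simp [h0]
  · intro hs
    rw [notMem_support_iff.mp hs, zero_mul]

theorem deg2_ne {μ : P3} {m : ℕ} (hc : Cur μ m) : degreeOf 2 μ ≠ 0 := by
  intro h
  have h1 := hc.gp
  rw [coeff_gp hc.hom] at h1
  have h2 : Finsupp.single 2 (2 * m + 1) ∈ μ.support := mem_support_iff.mpr h1
  have h3 := monomial_le_degreeOf (2 : Fin 3) h2
  rw [h] at h3
  simp at h3

theorem prime_psi {μ : P3} {m : ℕ} (hc : Cur μ m) : Prime (psi μ) :=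
  Pool.Agent.Helper82.HP.ph_prime hc.hom hc.irr (deg2_ne hc)

theorem irr_psi {μ : P3} {m : ℕ} (hc : Cur μ m) : Irreducible (psi μ) := (prime_psi hc).irreducible

theorem ev_eq_zero {μ : P3} {m : ℕ} (hc : Cur μ m) {f : P3} {n : ℕ} (hf : f.IsHomogeneous n) :
    ev μ f = 0 ↔ μ ∣ f := by
  rw [ev_eq, AdjoinRoot.mk_eq_zero]
  exact Pool.Agent.Helper82.HP.ph_dvd hc.hom hc.irr (deg2_ne hc) hf

theorem LF_nat (μ : P3) (n : ℕ) :
    LF μ (n : ℤ) = (homogeneousSubmodule (Fin 3) ℂ n).map (ev μ).toLinearMap := by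
  rw [LF, if_pos (by positivity), Int.toNat_natCast]

theorem ev_mem (μ : P3) {f : P3} {n : ℕ} (hf : f.IsHomogeneous n) : ev μ f ∈ LF μ n := by
  rw [LF_nat]
  exact ⟨f, hf, rfl⟩

theorem LF_neg (μ : P3) {n : ℤ} (hn : n < 0) : LF μ n = ⊥ := by
  rw [LF, if_neg (by omega)]

theorem mem_LF {μ : P3} {n : ℤ} {b : KG μ} (hb : b ∈ LF μ n) :
    b = 0 ∨ ∃ (k : ℕ) (f : P3), (k : ℤ) = n ∧ f.IsHomogeneous k ∧ ev μ f = b := by
  rcases lt_or_ge n 0 with hn | hn
  · rw [LF_neg μ hn] at hb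
    exact Or.inl hb
  · obtain ⟨k, rfl⟩ := Int.eq_ofNat_of_zero_le hn
    rw [LF_nat] at hb
    obtain ⟨f, hf, rfl⟩ := hb
    exact Or.inr ⟨k, f, rfl, hf, rfl⟩

theorem LF_mono (μ : P3) : Monotone (LF μ) := by
  intro n n' hnn b hb
  rcases mem_LF hb with rfl | ⟨k, f, hk, hf, rfl⟩
  · exact Submodule.zero_mem _
  · obtain ⟨l, hl⟩ := Int.eq_ofNat_of_zero_le (show 0 ≤ n' - n by omega)
    have h1 : ev μ f = ev μ (X 0 ^ l * f) := by
      rw [map_mul, map_pow, ev_X0, one_pow, one_mul]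
    have h2 : n' = ((l + k : ℕ) : ℤ) := by push_cast; omega
    rw [h1, h2]
    exact ev_mem μ ((isHomogeneous_X_pow _ _).mul hf)

instance fin_hom (n : ℕ) : FiniteDimensional ℂ (homogeneousSubmodule (Fin 3) ℂ n) := by
  infer_instance

theorem LF_fin (μ : P3) (n : ℤ) : FiniteDimensional ℂ (LF μ n) := by
  rcases lt_or_ge n 0 with hn | hn
  · rw [LF_neg μ hn]
    infer_instance
  · obtain ⟨k, rfl⟩ := Int.eq_ofNat_of_zero_le hn
    rw [LF_nat]
    infer_instance

theorem LF_mul {μ : P3} {i j : ℤ} {a b : KG μ} (ha : a ∈ LF μ i) (hb : b ∈ LF μ j) :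
    a * b ∈ LF μ (i + j) := by
  rcases mem_LF ha with rfl | ⟨k, f, hk, hf, rfl⟩
  · rw [zero_mul]; exact Submodule.zero_mem _
  · rcases mem_LF hb with rfl | ⟨l, g, hl, hg, rfl⟩
    · rw [mul_zero]; exact Submodule.zero_mem _
    · have h2 : i + j = ((k + l : ℕ) : ℤ) := by push_cast; omega
      rw [← map_mul, h2]
      exact ev_mem μ (hf.mul hg)

theorem not_X0_dvd {μ : P3} {m : ℕ} (hc : Cur μ m) : ¬ X 0 ∣ μ := by
  rintro ⟨q, hq⟩
  apply hc.gp
  rw [hq, map_mul, eval_X]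
  simp

theorem rh_ne {μ : P3} {m : ℕ} (hc : Cur μ m) : rh μ ≠ 0 := fun h =>
  not_X0_dvd hc (rh_eq_zero h)

theorem rh_X0 : rh (X 0) = 0 := by simp [rh]

theorem hom_quot {a f : P3} {n d : ℕ} (ha : a.IsHomogeneous n) (hf : f.IsHomogeneous d)
    (hf0 : f ≠ 0) (h : a ∣ f) : ∃ q : P3, ∃ e : ℕ, q.IsHomogeneous e ∧ n + e = d ∧ f = a * q := by
  obtain ⟨q, hq⟩ := h
  rw [hq] at hf hf0
  obtain ⟨a', b', h1, h2, h3⟩ := Helper16.hom_factor hf hf0
  have : a' = n := h1.inj_right ha (left_ne_zero_of_mul hf0)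
  exact ⟨q, b', h2, by omega, hq⟩

theorem mem_LF_pred {μ : P3} {m : ℕ} (hc : Cur μ m) {f : P3} {i : ℕ} (hf : f.IsHomogeneous i)
    (h : rh μ ∣ rh f) : ev μ f ∈ LF μ ((i : ℤ) - 1) := by
  obtain ⟨q, hq0, hq⟩ : ∃ q : P3, X 0 ∣ f - μ * q ∧ (f - μ * q).IsHomogeneous i := by
    by_cases h0 : rh f = 0
    · refine ⟨0, ?_, ?_⟩
      · rw [mul_zero, sub_zero]; exact rh_eq_zero h0
      · rwa [mul_zero, sub_zero]
    · obtain ⟨q, e, hqe, hne, hq⟩ := hom_quot (rh_hom hc.hom) (rh_hom hf) h0 h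
      refine ⟨q, ?_, ?_⟩
      · have h1 := X_dvd_sub_rh f
        have h2 := X_dvd_sub_rh μ
        rw [hq] at h1
        have h3 : f - μ * q = (f - rh μ * q) - (μ - rh μ) * q := by ring
        rw [h3]
        exact dvd_sub h1 (h2.mul_right _)
      · refine hf.sub ?_
        rw [← hne]
        exact hc.hom.mul hqe
  have hev : ev μ f = ev μ (f - μ * q) := by
    have h1 : ev μ μ = 0 := (ev_eq_zero hc hc.hom).mpr dvd_rfl
    rw [map_sub, map_mul, h1, zero_mul, sub_zero]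
  rw [hev]
  by_cases h0 : f - μ * q = 0
  · rw [h0, map_zero]; exact Submodule.zero_mem _
  · obtain ⟨f', e, hf', hne, he⟩ := hom_quot (isHomogeneous_X ℂ (0 : Fin 3)) hq h0 hq0
    rw [he, map_mul, ev_X0, one_mul]
    have : (i : ℤ) - 1 = (e : ℕ) := by omega
    rw [this]
    exact ev_mem μ hf'

theorem rh_dvd_of_mem {μ : P3} {m : ℕ} (hc : Cur μ m) {f : P3} {i : ℕ} (hf : f.IsHomogeneous i)
    (h : ev μ f ∈ LF μ ((i : ℤ) - 1)) : rh μ ∣ rh f := by
  rcases mem_LF h with h0 | ⟨k, f', hk, hf', he⟩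
  · exact map_dvd rh ((ev_eq_zero hc hf).mp h0)
  · have hh : (f - X 0 * f').IsHomogeneous i := by
      refine hf.sub ?_
      have := (isHomogeneous_X ℂ (0 : Fin 3)).mul hf'
      have e1 : 1 + k = i := by omega
      rwa [e1] at this
    have h1 : ev μ (f - X 0 * f') = 0 := by
      rw [map_sub, map_mul, ev_X0, one_mul, he, sub_self]
    have h2 := map_dvd rh ((ev_eq_zero hc hh).mp h1)
    rw [map_sub, map_mul, rh_X0, zero_mul, sub_zero] at h2
    exact h2

theorem LF_reg_one {μ : P3} {m : ℕ} (hc : Cur μ m) {P : P3} {e : ℕ} (hP : P.IsHomogeneous e)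
    (hcz : ∀ z : Fin 3 → ℂ, z ≠ 0 → z 0 = 0 → eval z μ = 0 → eval z P ≠ 0) {i : ℤ} {b : KG μ}
    (hb : b ∈ LF μ i) (h : ev μ P * b ∈ LF μ (i + e - 1)) : b ∈ LF μ (i - 1) := by
  rcases mem_LF hb with rfl | ⟨k, f, hk, hf, rfl⟩
  · exact Submodule.zero_mem _
  · rw [← hk]
    apply mem_LF_pred hc hf
    rw [← map_mul] at h
    have h1 : i + e - 1 = ((e + k : ℕ) : ℤ) - 1 := by push_cast; omega
    rw [h1] at h
    have h2 := rh_dvd_of_mem hc (hP.mul hf) h
    rw [map_mul] at h2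
    exact (rh_rel hc.hom (not_X0_dvd hc) hcz).dvd_of_dvd_mul_left h2

theorem LF_reg {μ : P3} {m : ℕ} (hc : Cur μ m) {P : P3} {e : ℕ} (hP : P.IsHomogeneous e)
    (hcz : ∀ z : Fin 3 → ℂ, z ≠ 0 → z 0 = 0 → eval z μ = 0 → eval z P ≠ 0) {i n : ℤ} {b : KG μ}
    (hb : b ∈ LF μ i) (h : ev μ P * b ∈ LF μ (n + e)) : b ∈ LF μ n := by
  obtain ⟨k, hk⟩ : ∃ k : ℕ, i ≤ n + k := ⟨(i - n).toNat, by omega⟩
  have hb' : b ∈ LF μ (n + k) := LF_mono μ hk hb
  clear hb hk
  induction k with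
  | zero => simpa using hb'
  | succ k ih =>
    apply ih
    have h1 : n + (k : ℤ) = n + ((k + 1 : ℕ) : ℤ) - 1 := by push_cast; ring
    rw [h1]
    apply LF_reg_one hc hP hcz hb'
    apply LF_mono μ _ h
    push_cast
    omega

theorem LF_sat {μ : P3} {m : ℕ} (hc : Cur μ m) {i n : ℤ} {b : KG μ}
    (hb : b ∈ LF μ i) (h : ev μ (X 1) * b ∈ LF μ (n + 1)) : b ∈ LF μ n := by
  refine LF_reg hc (P := X 1) (e := 1) (isHomogeneous_X ℂ (1 : Fin 3)) ?_ hb (by simpa using h)
  intro z hz h0 hμ h1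
  rw [eval_X] at h1
  have h2 : z = z 2 • (![0, 0, 1] : Fin 3 → ℂ) := by
    funext i
    fin_cases i
    · simp [h0]
    · simp [h1]
    · simp
  have h3 : z 2 ≠ 0 := by
    intro h3
    apply hz
    rw [h2, h3, zero_smul]
  rw [h2, Helper16.eval_smul_of_hom hc.hom] at hμ
  rcases mul_eq_zero.mp hμ with h4 | h4
  · exact h3 (pow_eq_zero_iff (by omega) |>.mp h4)
  · exact hc.gp h4

/-- the embedding of `C[x]` in the function field -/
noncomputable def cq (μ : P3) : Polynomial ℂ →+* KG μ :=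
  (algebraMap kx (KG μ)).comp (algebraMap (Polynomial ℂ) kx)

theorem cq_X (μ : P3) : cq μ Polynomial.X = ex μ := rfl

theorem cq_C (μ : P3) (a : ℂ) : cq μ (Polynomial.C a) = algebraMap ℂ (KG μ) a := by
  have h1 : ev μ (C a) = algebraMap ℂ (KG μ) a := (ev μ).commutes a
  rw [← h1, ev_eq]
  have h2 : psi (C a) = Polynomial.C (algebraMap (Polynomial ℂ) kx (Polynomial.C a)) :=
    Pool.Agent.Helper82.HP.ph_C a
  rw [h2]
  rfl

theorem mono_mem (μ : P3) {a k : ℕ} {n : ℤ} (h : (a : ℤ) + k ≤ n) : ex μ ^ a * ey μ ^ k ∈ LF μ n := by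
  apply LF_mono μ h
  have h1 : ex μ ^ a * ey μ ^ k = ev μ (X 1 ^ a * X 2 ^ k) := by
    rw [map_mul, map_pow, map_pow, ev_X1, ev_X2]
  rw [h1]
  have := ev_mem μ ((isHomogeneous_X_pow (R := ℂ) (1 : Fin 3) a).mul
    (isHomogeneous_X_pow (R := ℂ) (2 : Fin 3) k))
  push_cast at this
  exact this

/-- the span of the reduced monomials -/
noncomputable def NF (μ : P3) (m : ℕ) (n : ℤ) : Submodule ℂ (KG μ) :=
  Submodule.span ℂ {b | ∃ a k : ℕ, k ≤ 2 * m ∧ (a : ℤ) + k ≤ n ∧ b = ex μ ^ a * ey μ ^ k}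

theorem NF_mono (μ : P3) (m : ℕ) : Monotone (NF μ m) := by
  intro n n' h
  apply Submodule.span_mono
  rintro b ⟨a, k, h1, h2, h3⟩
  exact ⟨a, k, h1, h2.trans h, h3⟩

theorem ev_sum (μ f : P3) : ev μ f = ∑ s ∈ f.support, coeff s f • (ex μ ^ s 1 * ey μ ^ s 2) := by
  conv_lhs => rw [f.as_sum, map_sum]
  refine Finset.sum_congr rfl fun s _ => ?_
  rw [monomial_eq, map_mul]
  have h1 : ev μ (C (coeff s f)) = algebraMap ℂ (KG μ) (coeff s f) := (ev μ).commutes _
  rw [h1, Algebra.smul_def, Finsupp.prod_fintype _ _ (by simp), Fin.prod_univ_three, map_mul,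
    map_mul, map_pow, map_pow, map_pow, ev_X0, ev_X1, ev_X2, one_pow, one_mul]

theorem mono_mem_NF {μ : P3} {m : ℕ} (hc : Cur μ m) (k : ℕ) :
    ∀ a : ℕ, ex μ ^ a * ey μ ^ k ∈ NF μ m ((a : ℤ) + k) := by
  induction k using Nat.strong_induction_on with
  | _ k ih =>
    intro a
    rcases le_or_gt k (2 * m) with hk | hk
    · exact Submodule.subset_span ⟨a, k, hk, le_rfl, rfl⟩
    · set μ0 := coeff (Finsupp.single 2 (2 * m + 1)) μ with hμ0
      have hμ0' : μ0 ≠ 0 := by rw [hμ0, ← coeff_gp hc.hom]; exact hc.gp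
      have hrel : ev μ μ = 0 := (ev_eq_zero hc hc.hom).mpr dvd_rfl
      rw [ev_sum] at hrel
      have hmem : Finsupp.single 2 (2 * m + 1) ∈ μ.support := mem_support_iff.mpr hμ0'
      rw [← Finset.add_sum_erase _ _ hmem] at hrel
      have h1 : (Finsupp.single 2 (2 * m + 1) : Fin 3 →₀ ℕ) 1 = 0 := by simp
      have h2 : (Finsupp.single 2 (2 * m + 1) : Fin 3 →₀ ℕ) 2 = 2 * m + 1 := by simp
      rw [h1, h2, pow_zero, one_mul, ← hμ0] at hrel
      have h3 : ex μ ^ a * ey μ ^ k = (-μ0⁻¹) • ∑ s ∈ μ.support.erase (Finsupp.single 2 (2 * m + 1)),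
          coeff s μ • (ex μ ^ (a + s 1) * ey μ ^ (k - (2 * m + 1) + s 2)) := by
        have h4 : ey μ ^ (2 * m + 1) = (-μ0⁻¹) •
            ∑ s ∈ μ.support.erase (Finsupp.single 2 (2 * m + 1)),
              coeff s μ • (ex μ ^ s 1 * ey μ ^ s 2) := by
          rw [eq_neg_of_add_eq_zero_right hrel, smul_neg, neg_smul, neg_neg, smul_smul,
            inv_mul_cancel₀ hμ0', one_smul]
        have h5 : ey μ ^ k = ey μ ^ (k - (2 * m + 1)) * ey μ ^ (2 * m + 1) := by
          rw [← pow_add]; congr 1; omega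
        rw [h5, h4, mul_smul_comm, mul_smul_comm, Finset.mul_sum, Finset.mul_sum]
        congr 1
        refine Finset.sum_congr rfl fun s _ => ?_
        rw [mul_smul_comm, mul_smul_comm, pow_add, pow_add]
        congr 1
        ring
      rw [h3]
      apply Submodule.smul_mem
      apply Submodule.sum_mem
      intro s hs
      rw [Finset.mem_erase] at hs
      have hdeg : s 0 + s 1 + s 2 = 2 * m + 1 := by
        have h4 : s.degree = 2 * m + 1 := by
          by_contra hd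
          exact (mem_support_iff.mp hs.2) (hc.hom.coeff_eq_zero hd)
        rw [Finsupp.degree_eq_sum, Fin.sum_univ_three] at h4
        exact h4
      have hs2 : s 2 ≠ 2 * m + 1 := by
        intro h4
        apply hs.1
        ext i
        fin_cases i
        · simp; omega
        · simp; omega
        · simpa using h4
      apply Submodule.smul_mem
      have h6 := ih (k - (2 * m + 1) + s 2) (by omega) (a + s 1)
      refine NF_mono μ m ?_ h6
      push_cast
      omega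

theorem LF_le_NF {μ : P3} {m : ℕ} (hc : Cur μ m) (n : ℤ) : LF μ n ≤ NF μ m n := by
  intro b hb
  rcases mem_LF hb with rfl | ⟨k, f, hk, hf, rfl⟩
  · exact Submodule.zero_mem _
  · rw [ev_sum]
    apply Submodule.sum_mem
    intro s hs
    apply Submodule.smul_mem
    refine NF_mono μ m ?_ (mono_mem_NF hc (s 2) (s 1))
    have h4 : s.degree = k := by
      by_contra hd
      exact (mem_support_iff.mp hs) (hf.coeff_eq_zero hd)
    rw [Finsupp.degree_eq_sum, Fin.sum_univ_three] at h4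
    omega

theorem exists_rep {μ : P3} {m : ℕ} (hc : Cur μ m) {n : ℤ} {b : KG μ} (hb : b ∈ LF μ n) :
    ∃ P : Fin (2 * m + 1) → Polynomial ℂ, (∀ (k : Fin (2 * m + 1)) (t : ℕ), n - (k : ℕ) < t →
      (P k).coeff t = 0) ∧ b = ∑ k, cq μ (P k) * ey μ ^ (k : ℕ) := by
  have h := LF_le_NF hc n hb
  clear hb
  induction h using Submodule.span_induction with
  | mem b hb =>
    obtain ⟨a, k, hk, hak, rfl⟩ := hb
    refine ⟨Pi.single ⟨k, by omega⟩ (Polynomial.X ^ a), ?_, ?_⟩
    · intro k' t ht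
      by_cases hkk : k' = ⟨k, by omega⟩
      · rw [hkk] at ht ⊢
        rw [Pi.single_eq_same, Polynomial.coeff_X_pow, if_neg]
        rintro rfl
        simp only at ht
        omega
      · rw [Pi.single_eq_of_ne hkk, Polynomial.coeff_zero]
    · rw [Finset.sum_eq_single (⟨k, by omega⟩ : Fin (2 * m + 1))]
      · rw [Pi.single_eq_same, map_pow, cq_X]
      · intro k' _ hkk
        rw [Pi.single_eq_of_ne hkk, map_zero, zero_mul]
      · intro h
        exact absurd (Finset.mem_univ _) h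
  | zero =>
    exact ⟨0, fun _ _ _ => by simp, by simp⟩
  | add b b' _ _ ih ih' =>
    obtain ⟨P, hP, rfl⟩ := ih
    obtain ⟨P', hP', rfl⟩ := ih'
    refine ⟨P + P', ?_, ?_⟩
    · intro k t ht
      rw [Pi.add_apply, Polynomial.coeff_add, hP k t ht, hP' k t ht, add_zero]
    · rw [← Finset.sum_add_distrib]
      refine Finset.sum_congr rfl fun k _ => ?_
      rw [Pi.add_apply, map_add, add_mul]
  | smul c b _ ih =>
    obtain ⟨P, hP, rfl⟩ := ih
    refine ⟨fun k => Polynomial.C c * P k, ?_, ?_⟩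
    · intro k t ht
      rw [Polynomial.coeff_C_mul, hP k t ht, mul_zero]
    · rw [Finset.smul_sum]
      refine Finset.sum_congr rfl fun k _ => ?_
      rw [map_mul, cq_C, Algebra.smul_def, mul_assoc]

theorem rep_mem {μ : P3} {m : ℕ} {n : ℤ} (P : Fin (2 * m + 1) → Polynomial ℂ)
    (hP : ∀ (k : Fin (2 * m + 1)) (t : ℕ), n - (k : ℕ) < t → (P k).coeff t = 0) :
    ∑ k, cq μ (P k) * ey μ ^ (k : ℕ) ∈ LF μ n := by
  apply Submodule.sum_mem
  intro k _
  rw [(P k).as_sum_support_C_mul_X_pow, map_sum, Finset.sum_mul]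
  apply Submodule.sum_mem
  intro t ht
  rw [map_mul, map_pow, cq_X, cq_C, mul_assoc, ← Algebra.smul_def]
  apply Submodule.smul_mem
  apply mono_mem
  by_contra hcon
  exact (Polynomial.mem_support_iff.mp ht) (hP k t (by omega))

theorem psi_sum (f : P3) : psi f = ∑ s ∈ f.support,
    Polynomial.C (algebraMap (Polynomial ℂ) kx (Polynomial.C (coeff s f) * Polynomial.X ^ s 1)) *
      Polynomial.X ^ s 2 := by
  conv_lhs => rw [f.as_sum, map_sum]
  refine Finset.sum_congr rfl fun s _ => ?_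
  rw [monomial_eq, map_mul]
  have h2 : psi (C (coeff s f)) =
      Polynomial.C (algebraMap (Polynomial ℂ) kx (Polynomial.C (coeff s f))) :=
    Pool.Agent.Helper82.HP.ph_C _
  rw [h2, Finsupp.prod_fintype _ _ (by simp), Fin.prod_univ_three, map_mul,
    map_mul, map_pow, map_pow, map_pow, psi_X0, psi_X1, psi_X2, one_pow, one_mul, map_mul, map_mul,
    map_pow, map_pow, mul_assoc]

theorem coeff_psi (f : P3) (j : ℕ) : (psi f).coeff j = ∑ s ∈ f.support,
    if s 2 = j then algebraMap (Polynomial ℂ) kx (Polynomial.C (coeff s f) * Polynomial.X ^ s 1)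
      else 0 := by
  conv_lhs => rw [psi_sum, Polynomial.finsetSum_coeff]
  refine Finset.sum_congr rfl fun s _ => ?_
  rw [Polynomial.coeff_C_mul, Polynomial.coeff_X_pow]
  by_cases h : s 2 = j
  · rw [if_pos h, if_pos h.symm, mul_one]
  · rw [if_neg h, if_neg (Ne.symm h), mul_zero]

theorem sum_of_mem {f : P3} {n : ℕ} (hf : f.IsHomogeneous n) {s : Fin 3 →₀ ℕ}
    (hs : s ∈ f.support) : s 0 + s 1 + s 2 = n := by
  have h4 : s.degree = n := by
    by_contra hd
    exact (mem_support_iff.mp hs) (hf.coeff_eq_zero hd)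
  rw [Finsupp.degree_eq_sum, Fin.sum_univ_three] at h4
  exact h4

theorem eq_single_of {s : Fin 3 →₀ ℕ} {n : ℕ} (h : s 0 + s 1 + s 2 = n) (h2 : s 2 = n) :
    s = Finsupp.single 2 n := by
  ext i
  fin_cases i
  · simp; omega
  · simp; omega
  · simpa using h2

theorem natDegree_psi {μ : P3} {m : ℕ} (hc : Cur μ m) : (psi μ).natDegree = 2 * m + 1 := by
  apply Polynomial.natDegree_eq_of_le_of_coeff_ne_zero
  · rw [Polynomial.natDegree_le_iff_coeff_eq_zero]
    intro j hj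
    rw [coeff_psi]
    apply Finset.sum_eq_zero
    intro s hs
    have := sum_of_mem hc.hom hs
    rw [if_neg (by omega)]
  · rw [coeff_psi, Finset.sum_eq_single (Finsupp.single 2 (2 * m + 1))]
    · rw [if_pos (by simp)]
      intro h
      have h1 := IsFractionRing.injective (Polynomial ℂ) kx (h.trans (map_zero _).symm)
      have h2 : (Finsupp.single 2 (2 * m + 1) : Fin 3 →₀ ℕ) 1 = 0 := by simp
      rw [h2, pow_zero, mul_one, Polynomial.C_eq_zero, ← coeff_gp hc.hom] at h1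
      exact hc.gp h1
    · intro s hs hne
      have h1 := sum_of_mem hc.hom hs
      rw [if_neg]
      intro h2
      exact hne (eq_single_of h1 h2)
    · intro h
      rw [notMem_support_iff.mp h]
      simp

/-- the power basis -/
noncomputable def pb {μ : P3} {m : ℕ} (hc : Cur μ m) : PowerBasis kx (KG μ) :=
  AdjoinRoot.powerBasis (irr_psi hc).ne_zero

theorem pb_gen {μ : P3} {m : ℕ} (hc : Cur μ m) : (pb hc).gen = ey μ := rfl

theorem pb_dim {μ : P3} {m : ℕ} (hc : Cur μ m) : (pb hc).dim = 2 * m + 1 := natDegree_psi hc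

/-- the basis `1, y, ..., y^(2m)` -/
noncomputable def yb {μ : P3} {m : ℕ} (hc : Cur μ m) : Basis (Fin (2 * m + 1)) kx (KG μ) :=
  (pb hc).basis.reindex (finCongr (pb_dim hc))

theorem yb_apply {μ : P3} {m : ℕ} (hc : Cur μ m) (k : Fin (2 * m + 1)) :
    yb hc k = ey μ ^ (k : ℕ) := by
  rw [yb, Basis.reindex_apply, PowerBasis.basis_eq_pow, pb_gen]
  rfl

theorem cq_mul_eq {μ : P3} (p : Polynomial ℂ) (b : KG μ) :
    cq μ p * b = (algebraMap (Polynomial ℂ) kx p) • b := by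
  rw [Algebra.smul_def]; rfl

theorem rep_inj {μ : P3} {m : ℕ} (hc : Cur μ m) (P : Fin (2 * m + 1) → Polynomial ℂ)
    (h : ∑ k, cq μ (P k) * ey μ ^ (k : ℕ) = 0) : P = 0 := by
  have h1 : ∑ k, (algebraMap (Polynomial ℂ) kx (P k)) • yb hc k = 0 := by
    rw [← h]
    refine Finset.sum_congr rfl fun k _ => ?_
    rw [yb_apply, cq_mul_eq]
  funext k
  have h2 := (Fintype.linearIndependent_iff.mp (yb hc).linearIndependent) _ h1 k
  exact IsFractionRing.injective (Polynomial ℂ) kx (h2.trans (map_zero _).symm)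

/-- the coefficient of `y^(2m)` -/
noncomputable def lamy {μ : P3} {m : ℕ} (hc : Cur μ m) : KG μ →ₗ[kx] kx :=
  (yb hc).coord ⟨2 * m, by omega⟩

theorem lamy_mono {μ : P3} {m : ℕ} (hc : Cur μ m) (p : Polynomial ℂ) (k : ℕ) (hk : k < 2 * m + 1) :
    lamy hc (cq μ p * ey μ ^ k) = if k = 2 * m then algebraMap (Polynomial ℂ) kx p else 0 := by
  rw [cq_mul_eq, map_smul]
  have h1 : ey μ ^ k = yb hc ⟨k, hk⟩ := (yb_apply hc ⟨k, hk⟩).symm
  rw [h1, lamy, Basis.coord_apply, Basis.repr_self, Finsupp.single_apply]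
  by_cases h : k = 2 * m
  · rw [if_pos (by simpa using h), if_pos h]
    simp
  · rw [if_neg (by simpa using h), if_neg h]
    simp

theorem lamy_rep {μ : P3} {m : ℕ} (hc : Cur μ m) (P : Fin (2 * m + 1) → Polynomial ℂ) :
    lamy hc (∑ k, cq μ (P k) * ey μ ^ (k : ℕ)) =
      algebraMap (Polynomial ℂ) kx (P ⟨2 * m, by omega⟩) := by
  rw [map_sum, Finset.sum_eq_single (⟨2 * m, by omega⟩ : Fin (2 * m + 1))]
  · rw [lamy_mono hc _ _ (by simp), if_pos rfl]
  · intro k _ hk
    rw [lamy_mono hc _ _ k.2, if_neg]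
    intro h
    exact hk (Fin.ext h)
  · intro h
    exact absurd (Finset.mem_univ _) h

theorem lamy_poly {μ : P3} {m : ℕ} (hc : Cur μ m) (n : ℤ) (b : KG μ) (hb : b ∈ LF μ n) :
    ∃ p : Polynomial ℂ, lamy hc b = algebraMap (Polynomial ℂ) kx p ∧
      ∀ k : ℕ, n - 2 * m < k → p.coeff k = 0 := by
  obtain ⟨P, hP, rfl⟩ := exists_rep hc hb
  refine ⟨_, lamy_rep hc P, fun k hk => hP _ _ ?_⟩
  simpa using hk

theorem exists_lam {μ : P3} {m : ℕ} (hc : Cur μ m) :
    ∃ lam : KG μ →ₗ[kx] kx,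
      (∀ (n : ℤ) (b : KG μ), b ∈ LF μ n → ∃ p : Polynomial ℂ,
        lam b = algebraMap (Polynomial ℂ) kx p ∧ ∀ k : ℕ, n - 2 * m < k → p.coeff k = 0) ∧
      (∀ (j : ℤ) (b : KG μ), b ∈ LF μ j → b ∉ LF μ (j - 1) → ∀ i : ℤ, 2 * m ≤ i →
        ∃ b' ∈ LF μ i, ∃ (p : Polynomial ℂ) (k : ℕ), (k : ℤ) = i + j - 2 * m ∧
          lam (b * b') = algebraMap (Polynomial ℂ) kx p ∧ p.coeff k ≠ 0) := by
  refine ⟨lamy hc, lamy_poly hc, ?_⟩
  intro j b hb hb1 i hi
  obtain ⟨P, hP, rfl⟩ := exists_rep hc hb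
  -- the set of indices with exact degree
  classical
  set T : Finset (Fin (2 * m + 1)) := Finset.univ.filter
    (fun k => ∃ t : ℕ, (t : ℤ) = j - (k : ℕ) ∧ (P k).coeff t ≠ 0) with hT
  have hTne : T.Nonempty := by
    by_contra hcon
    rw [Finset.not_nonempty_iff_eq_empty] at hcon
    apply hb1
    apply rep_mem
    intro k t ht
    rcases lt_or_ge (j - (k : ℕ)) (t : ℤ) with h1 | h1
    · exact hP k t h1
    · by_contra h2
      have : k ∈ T := by
        rw [hT, Finset.mem_filter]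
        exact ⟨Finset.mem_univ _, t, by omega, h2⟩
      rw [hcon] at this
      simp at this
  set l := T.max' hTne with hl
  have hlT : l ∈ T := Finset.max'_mem _ _
  rw [hT, Finset.mem_filter] at hlT
  obtain ⟨-, t0, ht0, hne⟩ := hlT
  have hmax : ∀ k : Fin (2 * m + 1), l < k → ∀ t : ℕ, j - 1 - (k : ℕ) < t → (P k).coeff t = 0 := by
    intro k hk t ht
    rcases lt_or_ge (j - (k : ℕ)) (t : ℤ) with h1 | h1
    · exact hP k t h1
    · by_contra h2
      have : k ∈ T := by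
        rw [hT, Finset.mem_filter]
        exact ⟨Finset.mem_univ _, t, by omega, h2⟩
      exact absurd (Finset.le_max' _ _ this) (not_le.mpr hk)
  obtain ⟨a, ha⟩ := Int.eq_ofNat_of_zero_le (show 0 ≤ i - 2 * m + (l : ℕ) by omega)
  have hl2 : (l : ℕ) ≤ 2 * m := by have := l.2; omega
  have hb' : ex μ ^ a * ey μ ^ (2 * m - (l : ℕ)) ∈ LF μ i := by
    apply mono_mem
    omega
  refine ⟨_, hb', ?_⟩
  -- split the sum
  set Q1 : Fin (2 * m + 1) → Polynomial ℂ := fun k => if l < k then P k else 0 with hQ1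
  have hsplit : ∑ k, cq μ (P k) * ey μ ^ (k : ℕ) = ∑ k, cq μ (Q1 k) * ey μ ^ (k : ℕ) +
      ∑ k, cq μ (if l < k then 0 else P k) * ey μ ^ (k : ℕ) := by
    rw [← Finset.sum_add_distrib]
    refine Finset.sum_congr rfl fun k _ => ?_
    rw [hQ1]
    by_cases h : l < k
    · simp [h]
    · simp [h]
  have hQ1m : ∑ k, cq μ (Q1 k) * ey μ ^ (k : ℕ) ∈ LF μ (j - 1) := by
    apply rep_mem
    intro k t ht
    rw [hQ1]
    by_cases h : l < k
    · simp only [h, if_true]; exact hmax k h t ht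
    · simp [h]
  obtain ⟨p1, hp1, hp1'⟩ := lamy_poly hc _ _ (LF_mul hQ1m hb')
  have h2 : lamy hc ((∑ k, cq μ (if l < k then 0 else P k) * ey μ ^ (k : ℕ)) *
      (ex μ ^ a * ey μ ^ (2 * m - (l : ℕ)))) =
      algebraMap (Polynomial ℂ) kx (P l * Polynomial.X ^ a) := by
    rw [Finset.sum_mul, map_sum, Finset.sum_eq_single l]
    · rw [if_neg (lt_irrefl _)]
      have h3 : cq μ (P l) * ey μ ^ (l : ℕ) * (ex μ ^ a * ey μ ^ (2 * m - (l : ℕ))) =
          cq μ (P l * Polynomial.X ^ a) * ey μ ^ (2 * m) := by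
        rw [map_mul, map_pow, cq_X]
        have : ey μ ^ (2 * m) = ey μ ^ (l : ℕ) * ey μ ^ (2 * m - (l : ℕ)) := by
          rw [← pow_add]; congr 1; omega
        rw [this]; ring
      rw [h3, lamy_mono hc _ _ (by omega), if_pos rfl]
    · intro k _ hk
      by_cases h : l < k
      · rw [if_pos h, map_zero, zero_mul, zero_mul, map_zero]
      · rw [if_neg h]
        have hkl : (k : ℕ) < l := by
          have : k < l := lt_of_le_of_ne (not_lt.mp h) hk
          exact this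
        have h3 : cq μ (P k) * ey μ ^ (k : ℕ) * (ex μ ^ a * ey μ ^ (2 * m - (l : ℕ))) =
            cq μ (P k * Polynomial.X ^ a) * ey μ ^ ((k : ℕ) + (2 * m - (l : ℕ))) := by
          rw [map_mul, map_pow, cq_X, pow_add]; ring
        rw [h3, lamy_mono hc _ _ (by omega), if_neg (by omega)]
    · intro h
      exact absurd (Finset.mem_univ _) h
  obtain ⟨k0, hk0⟩ := Int.eq_ofNat_of_zero_le (show 0 ≤ i + j - 2 * m by omega)
  refine ⟨p1 + P l * Polynomial.X ^ a, k0, hk0.symm, ?_, ?_⟩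
  · rw [hsplit, add_mul, map_add, hp1, h2, map_add]
  · rw [Polynomial.coeff_add, hp1' k0 (by omega), zero_add]
    have : k0 = t0 + a := by omega
    rw [this, Polynomial.coeff_mul_X_pow]
    exact hne

theorem finrank_LF {μ : P3} {m : ℕ} (hc : Cur μ m) {n : ℤ} (hn : 2 * m - 1 ≤ n) :
    (finrank ℂ (LF μ n) : ℤ) = (2 * m + 1) * (n - m + 1) := by
  let N : Fin (2 * m + 1) → ℕ := fun k => (n - (k : ℕ) + 1).toNat
  let Φ : (∀ k : Fin (2 * m + 1), Polynomial.degreeLT ℂ (N k)) →ₗ[ℂ] KG μ :=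
    { toFun := fun P => ∑ k, cq μ (P k) * ey μ ^ (k : ℕ)
      map_add' := fun P Q => by
        rw [← Finset.sum_add_distrib]
        refine Finset.sum_congr rfl fun k _ => ?_
        rw [Pi.add_apply, Submodule.coe_add, map_add, add_mul]
      map_smul' := fun c P => by
        rw [RingHom.id_apply, Finset.smul_sum]
        refine Finset.sum_congr rfl fun k _ => ?_
        rw [Pi.smul_apply, Submodule.coe_smul, Polynomial.smul_eq_C_mul, map_mul, cq_C,
          Algebra.smul_def, mul_assoc] }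
  have hker : LinearMap.ker Φ = ⊥ := by
    rw [LinearMap.ker_eq_bot']
    intro P hP
    have h1 := rep_inj hc (fun k => (P k : Polynomial ℂ)) hP
    funext k
    exact Subtype.ext (congrFun h1 k)
  have hmem : ∀ (k : Fin (2 * m + 1)) (p : Polynomial ℂ), p ∈ Polynomial.degreeLT ℂ (N k) ↔
      ∀ t : ℕ, n - (k : ℕ) < t → p.coeff t = 0 := by
    intro k p
    rw [Polynomial.mem_degreeLT, Polynomial.degree_lt_iff_coeff_zero]
    constructor
    · intro h t ht
      apply h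
      change (n - (k : ℕ) + 1).toNat ≤ t
      omega
    · intro h t ht
      apply h
      change (n - (k : ℕ) + 1).toNat ≤ t at ht
      omega
  have hrange : LinearMap.range Φ = LF μ n := by
    apply le_antisymm
    · rintro _ ⟨P, rfl⟩
      exact rep_mem (fun k => (P k : Polynomial ℂ)) (fun k => (hmem k _).mp (P k).2)
    · intro b hb
      obtain ⟨P, hP, rfl⟩ := exists_rep hc hb
      exact ⟨fun k => ⟨P k, (hmem k _).mpr (hP k)⟩, rfl⟩
  rw [← hrange, LinearMap.finrank_range_of_inj (LinearMap.ker_eq_bot.mp hker), finrank_pi_fintype]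
  have hfr : ∀ k : Fin (2 * m + 1), finrank ℂ (Polynomial.degreeLT ℂ (N k)) = N k := by
    intro k
    rw [LinearEquiv.finrank_eq (Polynomial.degreeLTEquiv ℂ (N k)), finrank_fin_fun]
  rw [Finset.sum_congr rfl fun k _ => hfr k]
  have hN : ∀ k : Fin (2 * m + 1), (N k : ℤ) = n + 1 - (k : ℕ) := by
    intro k
    have := k.2
    change (((n - (k : ℕ) + 1).toNat : ℕ) : ℤ) = n + 1 - (k : ℕ)
    omega
  push_cast
  rw [Finset.sum_congr rfl fun k _ => hN k, Finset.sum_sub_distrib, Finset.sum_const,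
    Finset.card_univ, Fintype.card_fin, Fin.sum_univ_eq_sum_range (fun k => (k : ℤ)) (2 * m + 1)]
  have hg : ∀ M : ℕ, 2 * ∑ k ∈ Finset.range M, (k : ℤ) = M * (M - 1) := by
    intro M
    induction M with
    | zero => simp
    | succ M ih => rw [Finset.sum_range_succ, mul_add, ih]; push_cast; ring
  have h1 := hg (2 * m + 1)
  push_cast at h1
  have h2 : (∑ k ∈ Finset.range (2 * m + 1), (k : ℤ)) = (2 * m + 1) * m := by
    linarith
  rw [h2, nsmul_eq_mul]
  push_cast
  ring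

end Pool.Agent.Helper27.OSX
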