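import Mathlib
import Pool.Agent.Helper82.HP.Transfer
import Pool.Agent.Helper29.TR.St.NoeFin
import Pool.Agent.Helper29.HP.Defs

set_option autoImplicit false

/-!
The square root of `δ` on a curve that is smooth at the points of `δ = 0` is regular there
(piece X18 of project OS).
-/

namespace Pool.Agent.Helper27.OSX.Gh

open MvPolynomial Pool.Agent.Helper29.HP Pool.Agent.Helper16 Pool.Agent.Helper82.HP

theorem comp_mul {μ : P3} {d : ℕ} (hμ : μ.IsHomogeneous d) (a : P3) (n : ℕ) :
    homogeneousComponent n (a * μ) =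
      (if d ≤ n then homogeneousComponent (n - d) a else 0) * μ := by
  rw [← coeff_scal, map_mul, scal_hom hμ, ← mul_assoc, Polynomial.coeff_mul_C,
    Polynomial.coeff_mul_X_pow']
  by_cases h : d ≤ n
  · rw [if_pos h, if_pos h, coeff_scal]
  · rw [if_neg h, if_neg h]

theorem comp_self {p : P3} {n : ℕ} (hp : p.IsHomogeneous n) : homogeneousComponent n p = p := by
  rw [homogeneousComponent_of_mem hp, if_pos rfl]

/-- homogeneous square root -/
theorem exists_hom_g {μ δ g h : P3} {d j : ℕ} (hμ : μ.IsHomogeneous d) (hμi : Irreducible μ)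
    (hδ : δ.IsHomogeneous 6) (hh : h.IsHomogeneous j) (h1 : ¬ μ ∣ h) (hμδ : ¬ μ ∣ δ)
    (h2 : μ ∣ g ^ 2 - δ * h ^ 2) :
    ∃ g' : P3, g'.IsHomogeneous (j + 3) ∧ μ ∣ g' ^ 2 - δ * h ^ 2 := by
  have hp : (Ideal.span {μ}).IsPrime := (Ideal.span_singleton_prime hμi.ne_zero).mpr hμi.prime
  let D := P3 ⧸ Ideal.span {μ}
  have : IsDomain D := Ideal.Quotient.isDomain _
  let q : P3 →+* D := Ideal.Quotient.mk _
  have hq : ∀ f, q f = 0 ↔ μ ∣ f := by
    intro f
    rw [← Ideal.mem_span_singleton]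
    exact Ideal.Quotient.eq_zero_iff_mem
  let τ : P3 →+* Polynomial D := (Polynomial.mapRingHom q).comp
    ((scal : P3 →ₐ[ℂ] Polynomial P3) : P3 →+* Polynomial P3)
  have hτc : ∀ f i, (τ f).coeff i = q (homogeneousComponent i f) := by
    intro f i
    change ((scal f).map q).coeff i = _
    rw [Polynomial.coeff_map, coeff_scal]
  have hτμ : τ μ = 0 := by
    change (scal μ).map q = 0
    rw [scal_hom hμ, Polynomial.map_mul, Polynomial.map_C, (hq μ).mpr dvd_rfl]
    simp
  have hδh : (δ * h ^ 2).IsHomogeneous (6 + 2 * j) := by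
    have := hδ.mul (hh.pow 2)
    rwa [mul_comm j 2] at this
  have hτδ : τ (δ * h ^ 2) = Polynomial.C (q (δ * h ^ 2)) * Polynomial.X ^ (6 + 2 * j) := by
    change (scal (δ * h ^ 2)).map q = _
    rw [scal_hom hδh, Polynomial.map_mul, Polynomial.map_C, Polynomial.map_pow, Polynomial.map_X]
    exact Polynomial.X_pow_mul
  have hne : q (δ * h ^ 2) ≠ 0 := by
    intro h0
    rw [map_mul, map_pow] at h0
    rcases mul_eq_zero.mp h0 with h3 | h3
    · exact hμδ ((hq δ).mp h3)
    · exact h1 ((hq h).mp (pow_eq_zero_iff two_ne_zero |>.mp h3))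
  have heq : τ g ^ 2 = Polynomial.C (q (δ * h ^ 2)) * Polynomial.X ^ (6 + 2 * j) := by
    obtain ⟨c, hc⟩ := h2
    have := congrArg τ hc
    rw [map_mul, hτμ, zero_mul, map_sub, map_pow, hτδ] at this
    exact sub_eq_zero.mp this
  have hdeg : 2 * (τ g).natDegree = 6 + 2 * j := by
    rw [← Polynomial.natDegree_pow, heq, Polynomial.natDegree_C_mul_X_pow _ _ hne]
  have hdeg' : (τ g).natDegree = j + 3 := by omega
  have hl := congrArg Polynomial.leadingCoeff heq
  rw [Polynomial.leadingCoeff_pow, Polynomial.leadingCoeff_C_mul_X_pow, Polynomial.leadingCoeff,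
    hdeg', hτc] at hl
  refine ⟨homogeneousComponent (j + 3) g, homogeneousComponent_isHomogeneous _ _, ?_⟩
  rw [← hq, map_sub, map_pow, hl, sub_self]

/-- restriction to the line through `z` -/
noncomputable def ln (z : Fin 3 → ℂ) : P3 →ₐ[ℂ] Polynomial ℂ :=
  aeval (fun i => Polynomial.C (z i) * Polynomial.X)

theorem eval_ln (z : Fin 3 → ℂ) (a : ℂ) (p : P3) : (ln z p).eval a = eval (a • z) p := by
  have h : (Polynomial.evalRingHom a).comp (ln z : P3 →+* Polynomial ℂ) = eval (a • z) := by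
    apply MvPolynomial.ringHom_ext
    · intro c
      simp [ln]
    · intro i
      change Polynomial.eval a (ln z (X i)) = _
      rw [ln, aeval_X, Polynomial.eval_mul, Polynomial.eval_C, Polynomial.eval_X, eval_X,
        Pi.smul_apply, smul_eq_mul, mul_comm]
  exact DFunLike.congr_fun h p

theorem ln_hom (z : Fin 3 → ℂ) {p : P3} {n : ℕ} (hp : p.IsHomogeneous n) :
    ln z p = Polynomial.C (eval z p) * Polynomial.X ^ n := by
  apply Polynomial.funext
  intro a
  rw [eval_ln, eval_smul_of_hom hp, Polynomial.eval_mul, Polynomial.eval_C, Polynomial.eval_pow,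
    Polynomial.eval_X, mul_comm]

theorem ln_eq_zero_hom (z : Fin 3 → ℂ) {p : P3} {n : ℕ} (hp : p.IsHomogeneous n) :
    ln z p = 0 ↔ eval z p = 0 := by
  rw [ln_hom z hp]
  constructor
  · intro h
    have := congrArg (Polynomial.eval 1) h
    simpa using this
  · intro h
    rw [h, map_zero, zero_mul]

/-- the two linear forms vanishing at `z` -/
noncomputable def lz (z : Fin 3 → ℂ) (k : Fin 3) (a : Fin 2) : P3 :=
  C (z k) * X (k.succAbove a) - C (z (k.succAbove a)) * X k

theorem sub_mem_lz (z : Fin 3 → ℂ) (k : Fin 3) (hk : z k ≠ 0) (p : P3) :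
    p - Polynomial.aeval (C (z k)⁻¹ * X k : P3) (ln z p) ∈ Ideal.span {lz z k 0, lz z k 1} := by
  induction p using MvPolynomial.induction_on with
  | C a => simp [ln]
  | add p q hp hq =>
    rw [map_add, map_add]
    have := Ideal.add_mem _ hp hq
    convert this using 1
    ring
  | mul_X p i hp =>
    rw [map_mul, map_mul]
    have hX : ∀ i : Fin 3, (X i : P3) - Polynomial.aeval (C (z k)⁻¹ * X k : P3) (ln z (X i)) ∈
        Ideal.span {lz z k 0, lz z k 1} := by
      intro i
      have h1 : Polynomial.aeval (C (z k)⁻¹ * X k : P3) (ln z (X i)) =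
          C (z i) * (C (z k)⁻¹ * X k) := by
        simp [ln]
      have h2 : (C (z k)⁻¹ * C (z k) : P3) = 1 := by
        rw [← map_mul, inv_mul_cancel₀ hk, map_one]
      rw [h1]
      rcases Fin.eq_self_or_eq_succAbove k i with rfl | ⟨a, rfl⟩
      · have : (X i : P3) - C (z i) * (C (z i)⁻¹ * X i) = 0 := by
          linear_combination (-(X i : P3)) * h2
        rw [this]
        exact Ideal.zero_mem _
      · have h3 : (X (k.succAbove a) : P3) - C (z (k.succAbove a)) * (C (z k)⁻¹ * X k) =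
            C (z k)⁻¹ * lz z k a := by
          rw [lz]
          linear_combination (-(X (k.succAbove a) : P3)) * h2
        rw [h3]
        apply Ideal.mul_mem_left
        fin_cases a
        · exact Ideal.subset_span (by simp)
        · exact Ideal.subset_span (by simp)
    have h4 : p * X i - Polynomial.aeval (C (z k)⁻¹ * X k : P3) (ln z p) *
        Polynomial.aeval (C (z k)⁻¹ * X k : P3) (ln z (X i)) =
        (p - Polynomial.aeval (C (z k)⁻¹ * X k : P3) (ln z p)) * X i +
        Polynomial.aeval (C (z k)⁻¹ * X k : P3) (ln z p) *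
          (X i - Polynomial.aeval (C (z k)⁻¹ * X k : P3) (ln z (X i))) := by ring
    rw [h4]
    exact Ideal.add_mem _ (Ideal.mul_mem_right _ _ hp) (Ideal.mul_mem_left _ _ (hX i))

theorem exists_of_ln (z : Fin 3 → ℂ) (k : Fin 3) (hk : z k ≠ 0) {p : P3} (hp : ln z p = 0) :
    ∃ A B : P3, p = A * lz z k 0 + B * lz z k 1 := by
  have h := sub_mem_lz z k hk p
  rw [hp, map_zero, sub_zero, Ideal.mem_span_pair] at h
  obtain ⟨A, B, h⟩ := h
  exact ⟨A, B, h.symm⟩

theorem eval_lz (z : Fin 3 → ℂ) (k : Fin 3) (a : Fin 2) : eval z (lz z k a) = 0 := by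
  simp [lz, mul_comm]

theorem ln_lz (z : Fin 3 → ℂ) (k : Fin 3) (a : Fin 2) : ln z (lz z k a) = 0 := by
  simp [lz, ln]
  ring

theorem span_pair_eq {R : Type*} [CommRing R] (u v a b : R) (hb : IsUnit b)
    (h : a * u + b * v = 0) : Ideal.span {u, v} = Ideal.span {u} := by
  obtain ⟨b, rfl⟩ := hb
  apply le_antisymm
  · rw [Ideal.span_le]
    intro x hx
    rcases hx with hx | hx
    · rw [hx]
      exact Ideal.subset_span rfl
    · rw [Set.mem_singleton_iff] at hx
      rw [hx, SetLike.mem_coe, Ideal.mem_span_singleton']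
      refine ⟨-(↑b⁻¹ * a), ?_⟩
      have h1 : (↑b⁻¹ : R) * (a * u + ↑b * v) = 0 := by rw [h, mul_zero]
      have h3 : (↑b⁻¹ : R) * ↑b = 1 := Units.inv_mul b
      linear_combination (-1 : R) * h1 + v * h3
  · exact Ideal.span_mono (by simp)

theorem dvd_of_sq {R : Type*} [CommRing R] [IsDomain R] [IsLocalRing R] [ValuationRing R]
    {G H D : R} (hH : H ≠ 0) (hsq : G ^ 2 = D * H ^ 2) (hD : D ∈ IsLocalRing.maximalIdeal R) :
    H ∣ G := by
  rcases ValuationRing.dvd_total H G with h1 | ⟨u, rfl⟩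
  · exact h1
  · exfalso
    have hg0 : G ≠ 0 := left_ne_zero_of_mul hH
    have h3 : G ^ 2 * (D * u ^ 2 - 1) = 0 := by linear_combination -hsq
    have h4 := (mul_eq_zero.mp h3).resolve_left (pow_ne_zero 2 hg0)
    have h5 : IsUnit D := IsUnit.of_mul_eq_one _ (sub_eq_zero.mp h4)
    exact hD h5

/-- the local statement -/
theorem local_gh {δ μ g h : P3} {d : ℕ} (hμ : μ.IsHomogeneous d) (hμi : Irreducible μ)
    (hδ : δ.IsHomogeneous 6) (hμδ : ¬ μ ∣ δ) (hh : ¬ μ ∣ h)
    (hgh : μ ∣ g ^ 2 - δ * h ^ 2) (z : Fin 3 → ℂ) (hz : z ≠ 0) (hzμ : eval z μ = 0)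
    (hzδ : eval z δ = 0) (hsm : ∃ i, eval z (pderiv i μ) ≠ 0) :
    ∃ s a : P3, ln z s ≠ 0 ∧ μ ∣ g * s - a * h := by
  obtain ⟨k, hk⟩ : ∃ k, z k ≠ 0 := by
    by_contra hcon
    push Not at hcon
    exact hz (funext hcon)
  have hp : (Ideal.span {μ}).IsPrime := (Ideal.span_singleton_prime hμi.ne_zero).mpr hμi.prime
  let D := P3 ⧸ Ideal.span {μ}
  have hdom : IsDomain D := Ideal.Quotient.isDomain _
  let q : P3 →+* D := Ideal.Quotient.mk _
  have hq : ∀ f, q f = 0 ↔ μ ∣ f := by
    intro f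
    rw [← Ideal.mem_span_singleton]
    exact Ideal.Quotient.eq_zero_iff_mem
  have hqs : Function.Surjective q := Ideal.Quotient.mk_surjective
  have hlnμ : ln z μ = 0 := (ln_eq_zero_hom z hμ).mpr hzμ
  let ψ : D →+* Polynomial ℂ := Ideal.Quotient.lift (Ideal.span {μ}) (ln z : P3 →+* Polynomial ℂ)
    (by
      intro a ha
      rw [Ideal.mem_span_singleton] at ha
      obtain ⟨b, rfl⟩ := ha
      change ln z (μ * b) = 0
      rw [map_mul, hlnμ, zero_mul])
  have hψ : ∀ f, ψ (q f) = ln z f := fun f => rfl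
  let M : Ideal D := RingHom.ker ψ
  have hM : M.IsPrime := RingHom.ker_isPrime ψ
  have hmem : ∀ f, q f ∈ M ↔ ln z f = 0 := fun f => RingHom.mem_ker
  have hM0 : M ≠ ⊥ := by
    intro h0
    have h1 : q δ ∈ M := (hmem δ).mpr ((ln_eq_zero_hom z hδ).mpr hzδ)
    rw [h0] at h1
    exact hμδ ((hq δ).mp h1)
  let O := Localization.AtPrime M
  have hnoeth : IsNoetherianRing O := IsLocalization.isNoetherianRing M.primeCompl _ inferInstance
  have hnf := IsLocalization.AtPrime.not_isField D hM0 O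
  let φ : P3 →+* O := (algebraMap D O).comp q
  have hinj : Function.Injective (algebraMap D O) :=
    IsLocalization.injective O M.primeCompl_le_nonZeroDivisors
  have hφμ : φ μ = 0 := by
    change algebraMap D O (q μ) = 0
    rw [(hq μ).mpr dvd_rfl, map_zero]
  obtain ⟨A, B, hAB⟩ := exists_of_ln z k hk hlnμ
  have hrel : φ A * φ (lz z k 0) + φ B * φ (lz z k 1) = 0 := by
    rw [← map_mul, ← map_mul, ← map_add, ← hAB, hφμ]
  have hunit : ∀ f : P3, ln z f ≠ 0 → IsUnit (φ f) := by
    intro f hf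
    have : q f ∈ M.primeCompl := fun h => hf ((hmem f).mp h)
    exact IsLocalization.map_units O (⟨_, this⟩ : M.primeCompl)
  have hevln : ∀ f : P3, eval z f ≠ 0 → ln z f ≠ 0 := by
    intro f hf h0
    apply hf
    have := eval_ln z 1 f
    rw [h0, one_smul] at this
    simpa using this.symm
  have hmax : IsLocalRing.maximalIdeal O = Ideal.span {φ (lz z k 0), φ (lz z k 1)} := by
    rw [← Localization.AtPrime.map_eq_maximalIdeal]
    apply le_antisymm
    · rw [Ideal.map_le_iff_le_comap]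
      intro r hr
      obtain ⟨f, rfl⟩ := hqs r
      obtain ⟨A', B', h'⟩ := exists_of_ln z k hk ((hmem f).mp hr)
      rw [Ideal.mem_comap]
      change φ f ∈ _
      rw [h', map_add, map_mul, map_mul]
      exact Ideal.mem_span_pair.2 ⟨_, _, rfl⟩
    · rw [Ideal.span_le]
      rintro _ (rfl | rfl)
      · exact Ideal.mem_map_of_mem _ ((hmem _).2 (ln_lz z k 0))
      · exact Ideal.mem_map_of_mem _ ((hmem _).2 (ln_lz z k 1))
  have hprin : (IsLocalRing.maximalIdeal O).IsPrincipal := by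
    rw [hmax]
    by_cases hB : eval z B = 0
    · have hA : eval z A ≠ 0 := by
        intro hA
        obtain ⟨i, hi⟩ := hsm
        apply hi
        rw [hAB]
        simp [Derivation.leibniz, hA, hB, eval_lz]
      have h5 := span_pair_eq (R := O) (φ (lz z k 1)) (φ (lz z k 0)) (φ B) (φ A)
        (hunit A (hevln A hA)) (by rw [add_comm]; exact hrel)
      rw [Set.pair_comm, h5]
      exact ⟨⟨_, rfl⟩⟩
    · have h5 := span_pair_eq (R := O) (φ (lz z k 0)) (φ (lz z k 1)) (φ A) (φ B)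
        (hunit B (hevln B hB)) hrel
      rw [h5]
      exact ⟨⟨_, rfl⟩⟩
  have hdvr : ValuationRing O :=
    ((IsDiscreteValuationRing.TFAE O hnf).out 1 4).mpr hprin
  have hsq : φ g ^ 2 = φ δ * φ h ^ 2 := by
    obtain ⟨c, hc⟩ := hgh
    have := congrArg φ hc
    rw [map_mul, hφμ, zero_mul, map_sub, map_mul, map_pow, map_pow] at this
    exact sub_eq_zero.mp this
  have hφh : φ h ≠ 0 := by
    intro h0
    apply hh
    rw [← hq]
    exact hinj (h0.trans (map_zero _).symm)
  have hdvd : φ h ∣ φ g := by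
    refine dvd_of_sq (R := O) hφh hsq ?_
    rw [← Localization.AtPrime.map_eq_maximalIdeal]
    exact Ideal.mem_map_of_mem _ ((hmem _).2 ((ln_eq_zero_hom z hδ).mpr hzδ))
  obtain ⟨u, hu⟩ := hdvd
  obtain ⟨⟨a, s⟩, has⟩ := IsLocalization.surj M.primeCompl u
  obtain ⟨a', rfl⟩ := hqs a
  obtain ⟨s', hs'⟩ := hqs s.1
  refine ⟨s', a', ?_, ?_⟩
  · intro h0
    apply s.2
    rw [← hs']
    exact (hmem s').mpr h0
  · rw [← hq, map_sub, map_mul, map_mul, sub_eq_zero]
    apply hinj
    rw [map_mul, map_mul]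
    change φ g * algebraMap D O (q s') = φ a' * φ h
    have has' : u * algebraMap D O s.1 = φ a' := has
    rw [hs', hu, ← has']
    ring

/-- the ideal of denominators -/
noncomputable def Iden (μ g h : P3) : Ideal P3 where
  carrier := {s | g * s ∈ Ideal.span {μ, h}}
  zero_mem' := by
    change g * 0 ∈ Ideal.span {μ, h}
    rw [mul_zero]; exact Ideal.zero_mem _
  add_mem' := fun {a b} ha hb => by
    change g * (a + b) ∈ Ideal.span {μ, h}
    rw [mul_add]; exact Ideal.add_mem _ ha hb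
  smul_mem' := fun c {a} ha => by
    change g * (c * a) ∈ Ideal.span {μ, h}
    rw [show g * (c * a) = c * (g * a) by ring]
    exact Ideal.mul_mem_left _ _ ha

theorem comp_mem_pair {μ h : P3} {d j : ℕ} (hμ : μ.IsHomogeneous d) (hh : h.IsHomogeneous j)
    {p : P3} (hp : p ∈ Ideal.span {μ, h}) (n : ℕ) :
    homogeneousComponent n p ∈ Ideal.span {μ, h} := by
  rw [Ideal.mem_span_pair] at hp ⊢
  obtain ⟨a, b, rfl⟩ := hp
  rw [map_add, comp_mul hμ, comp_mul hh]
  exact ⟨_, _, rfl⟩

theorem comp_mem_Iden {μ g h : P3} {d j e : ℕ} (hμ : μ.IsHomogeneous d) (hh : h.IsHomogeneous j)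
    (hg : g.IsHomogeneous e) {s : P3} (hs : s ∈ Iden μ g h) (n : ℕ) :
    homogeneousComponent n s ∈ Iden μ g h := by
  have h1 := comp_mem_pair hμ hh hs (n + e)
  rw [mul_comm, comp_mul hg, if_pos (by omega), Nat.add_sub_cancel] at h1
  change g * homogeneousComponent n s ∈ Ideal.span {μ, h}
  rw [mul_comm]
  exact h1

theorem exists_gh {δ μ : P3} {d : ℕ} (hμ : μ.IsHomogeneous d) (hμi : Irreducible μ)
    (hδ : δ.IsHomogeneous 6) (hδi : Irreducible δ) (hμδ : ¬ δ ∣ μ)
    (hsp : ∃ g h : P3, ¬ μ ∣ h ∧ μ ∣ g ^ 2 - δ * h ^ 2)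
    (hsm : ∀ z : Fin 3 → ℂ, z ≠ 0 → eval z μ = 0 → eval z δ = 0 → ∃ i, eval z (pderiv i μ) ≠ 0) :
    ∃ (e : ℕ) (g h : P3), g.IsHomogeneous (e + 3) ∧ h.IsHomogeneous e ∧ μ ∣ g ^ 2 - δ * h ^ 2 ∧
      ∀ z : Fin 3 → ℂ, z ≠ 0 → eval z μ = 0 → eval z δ = 0 → eval z h ≠ 0 := by
  have hδμ : ¬ μ ∣ δ := by
    intro h
    exact hμδ (hμi.dvd_symm hδi h)
  obtain ⟨g1, h1, hh1, hgh1⟩ := hsp
  obtain ⟨g2, h2, j, hh2, hh2', hgh2⟩ := hom_sq hμ hμi hδ hh1 hgh1
  obtain ⟨g, hg, hgh⟩ := exists_hom_g hμ hμi hδ hh2 hh2' hδμ hgh2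
  -- a linear form without common zeros
  have hrel : IsRelPrime μ δ := hμi.isRelPrime_iff_not_dvd.mpr hδμ
  obtain ⟨l, hl, hav⟩ := Pool.Agent.Helper29.TR.exists_lin_avoid hμ hδ hrel hδi.ne_zero
  let L : P3 := ∑ i, C (l (Pi.single i 1)) * X i
  have hLe : ∀ z, eval z L = l z := by
    intro z
    have h3 : z = ∑ i, z i • (Pi.single i 1 : Fin 3 → ℂ) := by
      funext j
      simp [Finset.sum_apply, Pi.single_apply]
    conv_rhs => rw [h3, map_sum]
    rw [map_sum]
    refine Finset.sum_congr rfl fun i _ => ?_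
    rw [map_mul, eval_C, eval_X, map_smul, smul_eq_mul, mul_comm]
  have hL : L.IsHomogeneous 1 := by
    refine IsHomogeneous.sum _ _ _ fun i _ => ?_
    have := (isHomogeneous_C (Fin 3) (l (Pi.single i 1))).mul (isHomogeneous_X ℂ i)
    simpa using this
  -- the ideal
  let J : Ideal P3 := Iden μ g h2 ⊔ Ideal.span {μ, δ}
  have hJ : L ∈ J.radical := by
    rw [← vanishingIdeal_zeroLocus_eq_radical (K := ℂ)]
    rw [mem_vanishingIdeal_iff]
    intro z hz
    rw [mem_zeroLocus_iff] at hz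
    have haev : ∀ p : P3, aeval z p = eval z p := fun p => by
      rw [← coe_aeval_eq_eval]; rfl
    rw [haev]
    by_cases hz0 : z = 0
    · rw [hz0, hLe, map_zero]
    · exfalso
      have hzμ : eval z μ = 0 := by
        rw [← haev]
        exact hz μ (Ideal.mem_sup_right (Ideal.subset_span (by simp)))
      have hzδ : eval z δ = 0 := by
        rw [← haev]
        exact hz δ (Ideal.mem_sup_right (Ideal.subset_span (by simp)))
      obtain ⟨s, a, hs, hsa⟩ := local_gh hμ hμi hδ hδμ hh2' hgh z hz0 hzμ hzδ (hsm z hz0 hzμ hzδ)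
      have hsI : s ∈ Iden μ g h2 := by
        change g * s ∈ Ideal.span {μ, h2}
        rw [Ideal.mem_span_pair]
        obtain ⟨c, hc⟩ := hsa
        exact ⟨c, a, by linear_combination -hc⟩
      have : ∃ n, eval z (homogeneousComponent n s) ≠ 0 := by
        by_contra hcon
        push Not at hcon
        apply hs
        rw [← sum_homogeneousComponent s, map_sum]
        apply Finset.sum_eq_zero
        intro n _
        rw [ln_eq_zero_hom z (homogeneousComponent_isHomogeneous n s)]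
        exact hcon n
      obtain ⟨n, hn⟩ := this
      apply hn
      rw [← haev]
      exact hz _ (Ideal.mem_sup_left (comp_mem_Iden hμ hh2 hg hsI n))
  obtain ⟨N, hN⟩ := hJ
  obtain ⟨s, hs, p, hp, hsp⟩ := Submodule.mem_sup.mp hN
  have hLN : (L ^ N).IsHomogeneous N := by
    have := hL.pow N
    rwa [one_mul] at this
  -- the homogeneous component of degree N
  set h' := homogeneousComponent N s with hh'
  have hh'I : h' ∈ Iden μ g h2 := comp_mem_Iden hμ hh2 hg hs N
  have hh'h : h'.IsHomogeneous N := homogeneousComponent_isHomogeneous _ _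
  have hLeq : L ^ N = h' + homogeneousComponent N p := by
    rw [hh', ← map_add, hsp, comp_self hLN]
  have hp' := comp_mem_pair hμ hδ hp N
  have hnz : ∀ z : Fin 3 → ℂ, z ≠ 0 → eval z μ = 0 → eval z δ = 0 → eval z h' ≠ 0 := by
    intro z hz hzμ hzδ h0
    rw [Ideal.mem_span_pair] at hp'
    obtain ⟨a, b, hab⟩ := hp'
    have h3 := congrArg (eval z) hLeq
    rw [map_add, h0, ← hab, map_add, map_mul, map_mul, hzμ, hzδ, mul_zero, mul_zero, map_pow, hLe,
      add_zero, add_zero] at h3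
    have h4 : l z = 0 := by
      by_contra h5
      exact pow_ne_zero N h5 h3
    exact hz (hav z h4 hzμ hzδ)
  -- the numerator
  have hh'I' : g * h' ∈ Ideal.span {μ, h2} := hh'I
  rw [Ideal.mem_span_pair] at hh'I'
  obtain ⟨a, b, hab⟩ := hh'I'
  have hgh' : (g * h').IsHomogeneous (j + (N + 3)) := by
    have := hg.mul hh'h
    rwa [show j + 3 + N = j + (N + 3) by ring] at this
  have h6 := comp_self hgh'
  rw [← hab, map_add, comp_mul hμ, comp_mul hh2, if_pos (show j ≤ j + (N + 3) by omega),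
    Nat.add_sub_cancel_left, hab] at h6
  set g' := homogeneousComponent (N + 3) b with hg'
  refine ⟨N, g', h', homogeneousComponent_isHomogeneous _ _, hh'h, ?_, hnz⟩
  have h7 : μ ∣ h2 ^ 2 * (g' ^ 2 - δ * h' ^ 2) := by
    obtain ⟨c, hc⟩ := hgh
    set a' := (if d ≤ j + (N + 3) then homogeneousComponent (j + (N + 3) - d) a else 0) with ha'
    refine ⟨h' ^ 2 * c - a' * (g * h' + g' * h2), ?_⟩
    linear_combination (g * h' + g' * h2) * h6 + h' ^ 2 * hc
  rcases hμi.prime.dvd_or_dvd h7 with h8 | h8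
  · exact absurd (hμi.prime.dvd_of_dvd_pow h8) hh2'
  · exact h8

end Pool.Agent.Helper27.OSX.Gh
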